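import Pool.Agent.helper27.TD.Spec2

/-!
# MP_16912e_nt (td), row MC2: the points on one curve, general splitting
-/

set_option autoImplicit false

namespace Pool.Agent.helper27.TD

open Finset Polynomial Pool.Agent.helper47.RA

/-- homogenization -/
theorem MC2_hev {f : ℕ} {F : ℤ[X]} (hF : F.natDegree ≤ f) (u v : ℤ) (hv : v ≠ 0) :
    ((hev f F u v : ℤ) : ℚ) = (v : ℚ) ^ f * ev F ((u : ℚ) / v) := by
  have hv' : (v : ℚ) ≠ 0 := by exact_mod_cast hv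
  have hd : (F.map (Int.castRingHom ℚ)).natDegree < f + 1 := by
    have := natDegree_map_le (f := Int.castRingHom ℚ) (p := F)
    omega
  unfold hev ev
  rw [Polynomial.eval_eq_sum_range' hd, Finset.mul_sum, Int.cast_sum]
  refine Finset.sum_congr rfl fun i hi => ?_
  have hi' : i ≤ f := by have := Finset.mem_range.1 hi; omega
  rw [coeff_map, div_pow, ← pow_sub_mul_pow (v : ℚ) hi']
  push_cast
  simp only [eq_intCast]
  field_simp

theorem MC2_ev_phi (A B : ℤ[X]) (z : ℤ) (τ : ℚ) :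
    ev (phi A B z) τ = ev A τ ^ 2 + z * ev B τ ^ 2 - 2 * τ * ev A τ * ev B τ := by
  unfold ev phi
  simp only [Polynomial.map_sub, Polynomial.map_add, Polynomial.map_mul, Polynomial.map_pow,
    Polynomial.map_C, Polynomial.map_X, Polynomial.map_ofNat, eval_sub, eval_add, eval_mul,
    eval_pow, eval_C, eval_X, eval_ofNat]
  rw [eq_intCast (Int.castRingHom ℚ) z]

theorem MC2_deg_phi {b : ℕ} {A B : ℤ[X]} (z : ℤ) (hA : A.natDegree ≤ b) (hB : B.natDegree ≤ b) :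
    (phi A B z).natDegree ≤ 2 * b + 1 := by
  have h1 : (A ^ 2).natDegree ≤ 2 * b := natDegree_pow_le_of_le 2 hA
  have h2 : (C z * B ^ 2).natDegree ≤ 2 * b :=
    (natDegree_C_mul_le _ _).trans (natDegree_pow_le_of_le 2 hB)
  have h3 : (2 * X * A * B : ℤ[X]).natDegree ≤ 2 * b + 1 := by
    have e : (2 * X * A * B : ℤ[X]) = C 2 * (X * (A * B)) := by
      rw [show (C (2 : ℤ) : ℤ[X]) = 2 from rfl]; ring
    rw [e]
    refine (natDegree_C_mul_le _ _).trans ?_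
    refine natDegree_mul_le.trans ?_
    have := (natDegree_mul_le (p := A) (q := B))
    rw [natDegree_X]
    omega
  unfold phi
  refine (natDegree_sub_le _ _).trans (max_le ((natDegree_add_le _ _).trans (max_le ?_ ?_)) h3)
  · omega
  · omega

theorem MC2_hev_phi {b : ℕ} {A B : ℤ[X]} (z : ℤ) (hA : A.natDegree ≤ b) (hB : B.natDegree ≤ b)
    (u v : ℤ) (hv : v ≠ 0) :
    hev (2 * b + 1) (phi A B z) u v = v * (hev b A u v ^ 2 + z * hev b B u v ^ 2) -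
      2 * u * hev b A u v * hev b B u v := by
  have hv' : (v : ℚ) ≠ 0 := by exact_mod_cast hv
  have h : ((hev (2 * b + 1) (phi A B z) u v : ℤ) : ℚ) =
      ((v * (hev b A u v ^ 2 + z * hev b B u v ^ 2) - 2 * u * hev b A u v * hev b B u v : ℤ) : ℚ) := by
    push_cast
    rw [MC2_hev (MC2_deg_phi z hA hB) u v hv, MC2_hev hA u v hv, MC2_hev hB u v hv, MC2_ev_phi]
    generalize ev A ((u : ℚ) / v) = a
    generalize ev B ((u : ℚ) / v) = c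
    have e : (v : ℚ) ^ (2 * b + 1) = ((v : ℚ) ^ b) ^ 2 * v := by ring
    rw [e]
    field_simp
  exact_mod_cast h

theorem MC2_coeff_mul {A B : ℤ[X]} {H K : ℤ} (hH : 0 ≤ H) (hA : ∀ i, |A.coeff i| ≤ H)
    (hB : ∀ i, |B.coeff i| ≤ K) (i : ℕ) : |(A * B).coeff i| ≤ (i + 1) * (H * K) := by
  rw [coeff_mul]
  refine (Finset.abs_sum_le_sum_abs _ _).trans ?_
  refine (Finset.sum_le_card_nsmul _ _ (H * K) ?_).trans ?_
  · intro x _
    rw [abs_mul]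
    exact mul_le_mul (hA _) (hB _) (abs_nonneg _) hH
  · rw [Finset.Nat.card_antidiagonal]
    simp

theorem MC2_coeff_phi {b H : ℕ} (hH : 1 ≤ H) {A B : ℤ[X]} {z : ℤ} (hz0 : 0 ≤ z) (hz : z ≤ H)
    (hA : A.natDegree ≤ b) (hB : B.natDegree ≤ b)
    (hc : ∀ i, |A.coeff i| ≤ H ∧ |B.coeff i| ≤ H) (i : ℕ) :
    |(phi A B z).coeff i| ≤ 8 * (b + 1) * (H : ℤ) ^ 3 := by
  have hH0 : (0 : ℤ) ≤ H := Int.natCast_nonneg _
  have hH1 : (1 : ℤ) ≤ H := by exact_mod_cast hH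
  rcases Nat.lt_or_ge (2 * b + 1) i with hi | hi
  · rw [coeff_eq_zero_of_natDegree_lt ((MC2_deg_phi z hA hB).trans_lt hi), abs_zero]
    positivity
  · have hi' : (i : ℤ) + 1 ≤ 2 * (b + 1) := by omega
    have h2 : (H : ℤ) ^ 2 ≤ H ^ 3 := pow_le_pow_right₀ hH1 (by norm_num)
    have hA2 : |(A ^ 2).coeff i| ≤ 2 * (b + 1) * (H : ℤ) ^ 3 := by
      rw [pow_two]
      refine (MC2_coeff_mul hH0 (fun j => (hc j).1) (fun j => (hc j).1) i).trans ?_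
      rw [← pow_two]
      exact mul_le_mul hi' h2 (by positivity) (by positivity)
    have hB2 : |(C z * B ^ 2).coeff i| ≤ 2 * (b + 1) * (H : ℤ) ^ 3 := by
      rw [coeff_C_mul, pow_two, abs_mul, abs_of_nonneg hz0]
      have h3 := MC2_coeff_mul hH0 (fun j => (hc j).2) (fun j => (hc j).2) i
      have h4 : z * |(B * B).coeff i| ≤ (H : ℤ) * ((2 * (b + 1)) * (H * H)) := by
        refine mul_le_mul hz (h3.trans ?_) (abs_nonneg _) hH0
        exact mul_le_mul_of_nonneg_right hi' (by positivity)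
      refine h4.trans (le_of_eq ?_)
      ring
    have hAB : |(2 * X * A * B : ℤ[X]).coeff i| ≤ 4 * (b + 1) * (H : ℤ) ^ 3 := by
      have e : (2 * X * A * B : ℤ[X]) = C 2 * (X * (A * B)) := by
        rw [show (C (2 : ℤ) : ℤ[X]) = 2 from rfl]; ring
      rw [e, coeff_C_mul, abs_mul]
      have h5 : |(X * (A * B) : ℤ[X]).coeff i| ≤ 2 * (b + 1) * (H : ℤ) ^ 3 := by
        rcases Nat.eq_zero_or_pos i with h0 | h0
        · rw [h0, mul_coeff_zero, coeff_X_zero, zero_mul, abs_zero]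
          positivity
        · obtain ⟨j, rfl⟩ := Nat.exists_eq_succ_of_ne_zero h0.ne'
          rw [Nat.succ_eq_add_one, coeff_X_mul]
          refine (MC2_coeff_mul hH0 (fun j => (hc j).1) (fun j => (hc j).2) j).trans ?_
          rw [← pow_two]
          refine mul_le_mul ?_ h2 (by positivity) (by positivity)
          push_cast at hi'
          linarith
      rw [show |(2 : ℤ)| = 2 from rfl]
      linarith
    unfold phi
    rw [coeff_sub, coeff_add]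
    have h6 := abs_sub (G := ℤ) ((A ^ 2).coeff i + (C z * B ^ 2).coeff i)
      ((2 * X * A * B : ℤ[X]).coeff i)
    have h7 := abs_add_le ((A ^ 2).coeff i) ((C z * B ^ 2).coeff i)
    nlinarith [h6, h7, hA2, hB2, hAB]

/-- the data of one point of the curve -/
theorem MC2_point {b p H q₁ q₂ L J : ℕ} (hq₁ : q₁.Prime) (hqL : q₁ ∣ L) (hJ0 : J ≠ 0) {k : ℤ}
    (hk₁ : ¬ (q₁ : ℤ) ∣ k) {A B : ℤ[X]} (hC : Curve b A B) {R : ℤ}
    (hR : ∀ u v : ℤ, IsCoprime u v → (Int.gcd (hev b A u v) (hev b B u v) : ℤ) ∣ R)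
    {D w x : ℤ} {P : Pt} (hT : Tw p q₁ q₂ L J D k w x P) (hP : ∀ i, |P i| ≤ H)
    (hO : OnCurve A B P) :
    ∃ u v s m t : ℤ, IsCoprime u v ∧ |u| ≤ H ∧ |v| ≤ H ∧ s ≠ 0 ∧ s ∣ R ∧ m ≠ 0 ∧
      m ∣ 2 * (J : ℤ) * k ^ 2 ∧
      hev (2 * b + 1) (phi A B (L : ℤ)) u v = s ^ 2 * m ∧ t ≠ 0 ∧
      D * k ^ 2 = t ^ 2 * (u ^ 2 - (L : ℤ) * v ^ 2) := by
  set z : ℤ := (L : ℤ) with hz
  have hqz : (q₁ : ℤ) ∣ z := by rw [hz]; exact_mod_cast hqL
  have hv0 : P 3 ≠ 0 := hT.v0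
  -- `g` is prime to `q₁`
  have hg : ¬ (q₁ : ℤ) ∣ P 0 := by
    intro h
    have h1 : (q₁ : ℤ) ∣ -(k * w) := by
      rw [← hT.hW]
      exact dvd_sub (h.trans (dvd_pow_self _ two_ne_zero)) (hqz.mul_right _)
    rcases (Nat.prime_iff_prime_int.1 hq₁).dvd_or_dvd ((dvd_neg).1 h1) with h2 | h2
    · exact hk₁ h2
    · exact hT.hw₁ h2
  have hg0 : P 0 ≠ 0 := by
    intro h
    exact hg (h ▸ dvd_zero _)
  -- primitive parts
  have hgcd1 : 0 < Int.gcd (P 2) (P 3) := Int.gcd_pos_of_ne_zero_right _ hv0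
  have hgcd2 : 0 < Int.gcd (P 0) (P 1) := Int.gcd_pos_of_ne_zero_left _ hg0
  obtain ⟨u, v, huv, hu, hv⟩ := Int.exists_gcd_one hgcd1
  obtain ⟨g, n, hgn, hgg, hnn⟩ := Int.exists_gcd_one hgcd2
  set t : ℤ := (Int.gcd (P 2) (P 3) : ℤ) with ht
  set r : ℤ := (Int.gcd (P 0) (P 1) : ℤ) with hr
  have ht0 : 0 < t := by rw [ht]; exact_mod_cast hgcd1
  have hr0 : 0 < r := by rw [hr]; exact_mod_cast hgcd2
  have hcuv : IsCoprime u v := Int.isCoprime_iff_gcd_eq_one.2 huv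
  have hcgn : IsCoprime g n := Int.isCoprime_iff_gcd_eq_one.2 hgn
  have hv1 : v ≠ 0 := by
    rintro rfl
    exact hv0 (by rw [hv, zero_mul])
  have hg1 : g ≠ 0 := by
    rintro rfl
    exact hg0 (by rw [hgg, zero_mul])
  have hu1 : |u| ≤ H := by
    have h1 := hP 2
    rw [hu, abs_mul, abs_of_pos ht0] at h1
    nlinarith [abs_nonneg u]
  have hv2 : |v| ≤ H := by
    have h1 := hP 3
    rw [hv, abs_mul, abs_of_pos ht0] at h1
    nlinarith [abs_nonneg v]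
  set a : ℤ := hev b A u v with ha
  set c : ℤ := hev b B u v with hc
  have hvq : (v : ℚ) ≠ 0 := by exact_mod_cast hv1
  have htq : (t : ℚ) ≠ 0 := by exact_mod_cast ht0.ne'
  have hτ : (P 2 : ℚ) / P 3 = (u : ℚ) / v := by
    rw [hu, hv]
    push_cast
    rw [mul_div_mul_right _ _ htq]
  -- the curve
  have hcur : g * c = n * a := by
    have h1 : (P 0 : ℚ) * ev B ((u : ℚ) / v) = P 1 * ev A ((u : ℚ) / v) := by
      rw [← hτ]; exact hO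
    have h2 : ((P 0 * c : ℤ) : ℚ) = ((P 1 * a : ℤ) : ℚ) := by
      push_cast
      rw [hc, ha, MC2_hev hC.dB u v hv1, MC2_hev hC.dA u v hv1]
      linear_combination (v : ℚ) ^ b * h1
    have h3 : P 0 * c = P 1 * a := by exact_mod_cast h2
    rw [hgg, hnn] at h3
    have h4 : r * (g * c) = r * (n * a) := by linear_combination h3
    exact mul_left_cancel₀ hr0.ne' h4
  obtain ⟨s, hs⟩ : g ∣ a := hcgn.dvd_of_dvd_mul_left ⟨c, hcur.symm⟩
  have hcs : c = n * s := by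
    apply mul_left_cancel₀ hg1
    rw [hcur, hs]; ring
  have hs0 : s ≠ 0 := by
    intro h
    have ha0 : a = 0 := by rw [hs, h, mul_zero]
    have hc0 : c = 0 := by rw [hcs, h, mul_zero]
    have h1 : ev A ((u : ℚ) / v) = 0 := by
      have h2 := MC2_hev hC.dA u v hv1
      rw [← ha, ha0, Int.cast_zero] at h2
      exact (mul_eq_zero.1 h2.symm).resolve_left (pow_ne_zero _ hvq)
    have h1' : ev B ((u : ℚ) / v) = 0 := by
      have h2 := MC2_hev hC.dB u v hv1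
      rw [← hc, hc0, Int.cast_zero] at h2
      exact (mul_eq_zero.1 h2.symm).resolve_left (pow_ne_zero _ hvq)
    obtain ⟨p, p', hpp⟩ := hC.cop
    have h3 := congrArg (eval ((u : ℚ) / v)) hpp
    rw [eval_add, eval_mul, eval_mul, eval_one] at h3
    unfold ev at h1 h1'
    rw [h1, h1', mul_zero, mul_zero, add_zero] at h3
    exact zero_ne_one h3
  have hsR : s ∣ R := by
    refine dvd_trans (Int.dvd_coe_gcd ?_ ?_) (hR u v hcuv)
    · rw [← ha, hs]; exact dvd_mul_left _ _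
    · rw [← hc, hcs]; exact dvd_mul_left _ _
  have hE := hT.hE
  rw [hu, hv, hgg, hnn] at hE
  have hE' : (v * (g ^ 2 + z * n ^ 2) - 2 * u * g * n) * (t * r ^ 2) = 2 * (J : ℤ) * k ^ 2 := by
    rw [← hE]; ring
  have hE0 : 2 * (J : ℤ) * k ^ 2 ≠ 0 :=
    mul_ne_zero (mul_ne_zero two_ne_zero (by exact_mod_cast hJ0)) (pow_ne_zero _ hT.k0)
  have hN := hT.hN
  rw [hu, hv] at hN
  refine ⟨u, v, s, v * (g ^ 2 + z * n ^ 2) - 2 * u * g * n, t, hcuv, hu1, hv2, hs0, hsR, ?_,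
    ⟨_, hE'.symm⟩, ?_, ht0.ne', ?_⟩
  · intro h
    rw [h, zero_mul] at hE'
    exact hE0 hE'.symm
  · rw [MC2_hev_phi z hC.dA hC.dB u v hv1, ← ha, ← hc, hs, hcs]
    ring
  · rw [← hN]; ring

theorem MC2_not_sq {q L l : ℕ} {L' : ℕ} (hq : q.Prime) (hl : Odd l) (hL : L = q ^ l * L')
    (hL' : ¬ q ∣ L') : ¬ IsSquare (L : ℤ) := by
  rintro ⟨r, hr⟩
  have hL0 : L' ≠ 0 := by
    rintro rfl
    exact hL' (dvd_zero _)
  have h1 : r.natAbs ^ 2 = q ^ l * L' := by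
    rw [← hL]
    have h2 : ((r.natAbs ^ 2 : ℕ) : ℤ) = (L : ℤ) := by
      push_cast
      rw [sq_abs, hr, pow_two]
    exact_mod_cast h2
  have e1 := congrArg (fun n : ℕ => n.factorization q) h1
  simp only [Nat.factorization_pow, Nat.factorization_mul (pow_ne_zero l hq.ne_zero) hL0,
    Finsupp.smul_apply, Finsupp.add_apply, hq.factorization_self, smul_eq_mul] at e1
  rw [Nat.factorization_eq_zero_of_not_dvd hL'] at e1
  obtain ⟨j, hj⟩ := hl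
  omega

/-- the Thue form is not degenerate -/
theorem MC2_nondeg (h3 : PA_stmt) (h4 : PV2_stmt) {b p q₁ q₂ l j L J L' J' : ℕ} (hb : 1 ≤ b)
    (hbp : ¬ (2 * b + 1 ∣ l + 2 * j)) (hq₁ : q₁.Prime) (hl : Odd l)
    (h5 : 5 ≤ q₁) (hL : L = q₁ ^ l * L') (hL' : ¬ q₁ ∣ L') (hJ : J = q₁ ^ j * J') (hJ' : ¬ q₁ ∣ J')
    {k : ℤ} (hk₁ : ¬ (q₁ : ℤ) ∣ k) {A B : ℤ[X]} (hC : Curve b A B)
    (hphi : phi A B (L : ℤ) ≠ 0)
    {D w x : ℤ} {P : Pt} (hT : Tw p q₁ q₂ L J D k w x P) (hO : OnCurve A B P) (c α β : ℚ) :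
    (phi A B (L : ℤ)).map (Int.castRingHom ℚ) ≠
      Polynomial.C c * (Polynomial.C α * X + Polynomial.C β) ^ (2 * b + 1) := by
  intro h
  have hl1 : 1 ≤ l := hl.pos
  have hL0 : L' ≠ 0 := by
    rintro rfl
    exact hL' (dvd_zero _)
  have hz : (0 : ℤ) < (L : ℤ) := by
    have : 0 < L := by rw [hL]; exact Nat.mul_pos (pow_pos hq₁.pos _) (Nat.pos_of_ne_zero hL0)
    exact_mod_cast this
  obtain ⟨κ, β', hκ⟩ := h3 b (L : ℤ) A B hb hz (MC2_not_sq hq₁ hl hL hL') hC hphi c α β h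
  have hqL : (q₁ : ℤ) ∣ (L : ℤ) := by
    have : q₁ ∣ L := by rw [hL]; exact (dvd_pow_self _ (by omega)).mul_right _
    exact_mod_cast this
  have hg : ¬ (q₁ : ℤ) ∣ P 0 := by
    intro h
    have h1 : (q₁ : ℤ) ∣ -(k * w) := by
      rw [← hT.hW]
      exact dvd_sub (h.trans (dvd_pow_self _ two_ne_zero)) (hqL.mul_right _)
    rcases (Nat.prime_iff_prime_int.1 hq₁).dvd_or_dvd ((dvd_neg).1 h1) with h2 | h2
    · exact hk₁ h2
    · exact hT.hw₁ h2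
  exact hbp (h4 q₁ l j b (L : ℤ) (L' : ℤ) (J : ℤ) (J' : ℤ) D k P A B κ β' hq₁ (by omega) hb hl1
    (by rw [hL]; push_cast; ring) (by exact_mod_cast hL') (by rw [hJ]; push_cast; ring)
    (by exact_mod_cast hJ') hC hO hT.v0 hT.hD₁ hk₁ hg hT.hN hT.hE hκ)

/-- the set of the values -/
theorem MC2_values (R E : ℤ) (hR : R ≠ 0) (hE : E ≠ 0) :
    ∃ M : Finset ℤ, M.card ≤ 2 * (R.natAbs.divisors.card * E.natAbs.divisors.card) ∧
      (∀ m ∈ M, m ≠ 0 ∧ |m| ≤ R ^ 2 * |E|) ∧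
      ∀ s m : ℤ, s ∣ R → m ∣ E → s ^ 2 * m ∈ M := by
  classical
  set Q : Finset (ℕ × ℕ) := R.natAbs.divisors ×ˢ E.natAbs.divisors with hQ
  set M1 : Finset ℤ := Q.image (fun p => (p.1 : ℤ) ^ 2 * (p.2 : ℤ)) with hM1
  set M2 : Finset ℤ := Q.image (fun p => -((p.1 : ℤ) ^ 2 * (p.2 : ℤ))) with hM2
  have hbd : ∀ p ∈ Q, (0 : ℤ) < (p.1 : ℤ) ^ 2 * (p.2 : ℤ) ∧
      (p.1 : ℤ) ^ 2 * (p.2 : ℤ) ≤ R ^ 2 * |E| := by
    intro p hp
    rw [hQ, Finset.mem_product, Nat.mem_divisors, Nat.mem_divisors] at hp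
    obtain ⟨⟨h1, h2⟩, h3, h4⟩ := hp
    have h5 : 0 < p.1 := Nat.pos_of_dvd_of_pos h1 (Nat.pos_of_ne_zero h2)
    have h6 : 0 < p.2 := Nat.pos_of_dvd_of_pos h3 (Nat.pos_of_ne_zero h4)
    have h7 : p.1 ≤ R.natAbs := Nat.le_of_dvd (Nat.pos_of_ne_zero h2) h1
    have h8 : p.2 ≤ E.natAbs := Nat.le_of_dvd (Nat.pos_of_ne_zero h4) h3
    have h7' : (p.1 : ℤ) ≤ |R| := by rw [← Int.natCast_natAbs]; exact_mod_cast h7
    have h8' : (p.2 : ℤ) ≤ |E| := by rw [← Int.natCast_natAbs]; exact_mod_cast h8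
    have h5' : (0 : ℤ) < p.1 := by exact_mod_cast h5
    have h6' : (0 : ℤ) < p.2 := by exact_mod_cast h6
    refine ⟨by positivity, ?_⟩
    rw [← sq_abs R]
    exact mul_le_mul (pow_le_pow_left₀ h5'.le h7' 2) h8' h6'.le (by positivity)
  refine ⟨M1 ∪ M2, ?_, ?_, ?_⟩
  · refine (Finset.card_union_le _ _).trans ?_
    have h1 : M1.card ≤ Q.card := Finset.card_image_le
    have h2 : M2.card ≤ Q.card := Finset.card_image_le
    have h3 : Q.card = R.natAbs.divisors.card * E.natAbs.divisors.card := by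
      rw [hQ, Finset.card_product]
    omega
  · intro m hm
    rcases Finset.mem_union.1 hm with hm | hm
    · obtain ⟨p, hp, rfl⟩ := Finset.mem_image.1 hm
      obtain ⟨h1, h2⟩ := hbd p hp
      exact ⟨h1.ne', by rw [abs_of_pos h1]; exact h2⟩
    · obtain ⟨p, hp, rfl⟩ := Finset.mem_image.1 hm
      obtain ⟨h1, h2⟩ := hbd p hp
      exact ⟨neg_ne_zero.2 h1.ne', by rw [abs_neg, abs_of_pos h1]; exact h2⟩
  · intro s m hs hm
    have hs' : s.natAbs ∈ R.natAbs.divisors :=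
      Nat.mem_divisors.2 ⟨Int.natAbs_dvd_natAbs.2 hs, Int.natAbs_ne_zero.2 hR⟩
    have hm' : m.natAbs ∈ E.natAbs.divisors :=
      Nat.mem_divisors.2 ⟨Int.natAbs_dvd_natAbs.2 hm, Int.natAbs_ne_zero.2 hE⟩
    have hp : (s.natAbs, m.natAbs) ∈ Q := by
      rw [hQ]; exact Finset.mem_product.2 ⟨hs', hm'⟩
    have hs2 : ((s.natAbs : ℕ) : ℤ) ^ 2 = s ^ 2 := by rw [Int.natCast_natAbs, sq_abs]
    rcases Int.natAbs_eq m with h | h
    · refine Finset.mem_union_left _ (Finset.mem_image.2 ⟨_, hp, ?_⟩)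
      show ((s.natAbs : ℕ) : ℤ) ^ 2 * ((m.natAbs : ℕ) : ℤ) = s ^ 2 * m
      rw [hs2, ← h]
    · refine Finset.mem_union_right _ (Finset.mem_image.2 ⟨_, hp, ?_⟩)
      show -(((s.natAbs : ℕ) : ℤ) ^ 2 * ((m.natAbs : ℕ) : ℤ)) = s ^ 2 * m
      rw [hs2, ← mul_neg, ← h]

theorem MC2 (h1 : RES_stmt) (h2 : THF_stmt) (h3 : PA_stmt) (h4 : PV2_stmt) (h5 : FSQ_stmt) :
    MC2_stmt := by
  classical
  intro b p l₁ l₂ j₁ j₂ hb hpp hbp ε hε
  obtain ⟨C1, hC1, hRES⟩ := h1 b hb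
  set K0 : ℕ := 50 * C1 ^ 2 + 8 * (b + 1) with hK0
  set K1 : ℕ := 2 * C1 + 5 with hK1
  set ε' : ℝ := ε / (3 * K1) with hε'
  have hK1pos : (0 : ℝ) < K1 := by rw [hK1]; positivity
  have hε'pos : 0 < ε' := by rw [hε']; positivity
  obtain ⟨Cτ, hCτ, hdiv⟩ := card_divisors_le ε' hε'pos
  obtain ⟨C3, hC3, hTHF⟩ := h2 (2 * b + 1) (by omega) ε' hε'pos
  have hK0pos : (1 : ℝ) ≤ K0 := by
    have : 1 ≤ K0 := by rw [hK0]; omega
    exact_mod_cast this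
  refine ⟨2 * Cτ ^ 2 * C3 * (K0 : ℝ) ^ (3 * ε'), ?_, ?_⟩
  · have e1 : 1 ≤ Cτ ^ 2 := one_le_pow₀ hCτ
    have e2 : (1 : ℝ) ≤ (K0 : ℝ) ^ (3 * ε') := Real.one_le_rpow hK0pos (by positivity)
    have e3 : 1 ≤ Cτ ^ 2 * C3 := one_le_mul_of_one_le_of_one_le e1 hC3
    have e4 : 1 ≤ Cτ ^ 2 * C3 * (K0 : ℝ) ^ (3 * ε') := one_le_mul_of_one_le_of_one_le e3 e2
    linarith
  intro H q₁ q₂ hH hPar hLH hJH k hk₁ hk₂ A B hC hAB T hT
  obtain ⟨hq₁, hq₂, hne, h5₁, h5₂, hodd₁, hodd₂, he₁, he₂⟩ := hPar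
  have hH1 : (1 : ℤ) ≤ H := by exact_mod_cast hH
  have hH0 : (0 : ℤ) ≤ H := by linarith
  rcases T.eq_empty_or_nonempty with rfl | ⟨D₀, hD₀⟩
  · rw [Finset.card_empty, Nat.cast_zero]
    positivity
  set L : ℕ := q₁ ^ l₁ * q₂ ^ l₂ with hL
  set J : ℕ := q₁ ^ j₁ * q₂ ^ j₂ with hJ
  have hL0 : 0 < L := Nat.mul_pos (pow_pos hq₁.pos _) (pow_pos hq₂.pos _)
  have hJ0 : 0 < J := Nat.mul_pos (pow_pos hq₁.pos _) (pow_pos hq₂.pos _)
  have hqL : q₁ ∣ L := by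
    rw [hL]; exact (dvd_pow_self _ (by have := hodd₁.pos; omega)).mul_right _
  have hnd₁ : ∀ i : ℕ, ¬ q₁ ∣ q₂ ^ i := fun i h =>
    hne ((Nat.prime_dvd_prime_iff_eq hq₁ hq₂).1 (hq₁.dvd_of_dvd_pow h))
  set z : ℤ := (L : ℤ) with hz
  have hzpos : 0 < z := by rw [hz]; exact_mod_cast hL0
  have hzH : z ≤ H := by rw [hz]; exact_mod_cast hLH
  obtain ⟨R, hR0, hRb, hRd⟩ := hRES H hH A B hC hAB
  set E : ℤ := 2 * (J : ℤ) * k ^ 2 with hE
  -- the data of the points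
  have hpt : ∀ D ∈ T, ∃ u v s m t : ℤ, IsCoprime u v ∧ |u| ≤ H ∧ |v| ≤ H ∧ s ≠ 0 ∧ s ∣ R ∧
      m ≠ 0 ∧ m ∣ E ∧ hev (2 * b + 1) (phi A B z) u v = s ^ 2 * m ∧ t ≠ 0 ∧
      D * k ^ 2 = t ^ 2 * (u ^ 2 - z * v ^ 2) := by
    intro D hD
    obtain ⟨w, x, P, hTow, hP, hO⟩ := hT D hD
    exact MC2_point hq₁ hqL hJ0.ne' hk₁ hC hRd hTow hP hO
  obtain ⟨w₀, x₀, P₀, hTow₀, hP₀, hO₀⟩ := hT D₀ hD₀
  have hk0 : k ≠ 0 := hTow₀.k0
  have hE0 : E ≠ 0 :=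
    mul_ne_zero (mul_ne_zero two_ne_zero (by exact_mod_cast hJ0.ne')) (pow_ne_zero _ hk0)
  have hkb : k ^ 2 ≤ 25 * (H : ℤ) := by
    have := hTow₀.bk
    rw [← hz] at this
    linarith
  have hEb : |E| ≤ 50 * (H : ℤ) ^ 2 := by
    have hJ1 : (0 : ℤ) ≤ (J : ℤ) := Int.natCast_nonneg _
    have hJ2 : (J : ℤ) ≤ H := by exact_mod_cast hJH
    rw [hE, abs_mul, abs_mul, abs_of_nonneg (sq_nonneg k), abs_of_nonneg hJ1]
    rw [show |(2 : ℤ)| = 2 from rfl]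
    calc 2 * (J : ℤ) * k ^ 2 ≤ 2 * (H : ℤ) * (25 * H) :=
          mul_le_mul (by linarith) hkb (sq_nonneg k) (by positivity)
      _ = 50 * (H : ℤ) ^ 2 := by ring
  -- the height
  set H' : ℕ := K0 * H ^ K1 with hH'
  have hpowle : ∀ i : ℕ, i ≤ K1 → (H : ℤ) ^ i ≤ (H : ℤ) ^ K1 := fun i hi => pow_le_pow_right₀ hH1 hi
  have hpw : (0 : ℤ) < (H : ℤ) ^ K1 := pow_pos (by linarith) _
  have hK0c : (K0 : ℤ) = 50 * (C1 : ℤ) ^ 2 + 8 * (b + 1) := by rw [hK0]; push_cast; ring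
  have hC1c : (1 : ℤ) ≤ C1 := by exact_mod_cast hC1
  have hH'c : ((H' : ℕ) : ℤ) = (K0 : ℤ) * (H : ℤ) ^ K1 := by rw [hH']; push_cast; ring
  have hK01 : (1 : ℤ) ≤ K0 := by exact_mod_cast hK0pos
  have hHH' : (H : ℤ) ≤ H' := by
    rw [hH'c]
    have e1 := hpowle 1 (by omega)
    rw [pow_one] at e1
    nlinarith
  have hH'1 : 1 ≤ H' := by
    have : (1 : ℤ) ≤ H' := hH1.trans hHH'
    exact_mod_cast this
  have hcoef : ∀ i, |(phi A B z).coeff i| ≤ (H' : ℤ) := by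
    intro i
    refine (MC2_coeff_phi hH hzpos.le hzH hC.dA hC.dB hAB i).trans ?_
    rw [hH'c, hK0c]
    have e1 := hpowle 3 (by omega)
    have e2 : (0 : ℤ) ≤ 50 * (C1 : ℤ) ^ 2 * (H : ℤ) ^ K1 := by positivity
    have e3 : 8 * ((b : ℤ) + 1) * (H : ℤ) ^ 3 ≤ 8 * ((b : ℤ) + 1) * (H : ℤ) ^ K1 :=
      mul_le_mul_of_nonneg_left e1 (by positivity)
    linarith
  have hRE : R ^ 2 * |E| ≤ (H' : ℤ) := by
    have e1 : R ^ 2 ≤ ((C1 : ℤ) * (H : ℤ) ^ C1) ^ 2 := by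
      rw [← sq_abs R]
      exact pow_le_pow_left₀ (abs_nonneg R) hRb 2
    have e2 : R ^ 2 * |E| ≤ ((C1 : ℤ) * (H : ℤ) ^ C1) ^ 2 * (50 * (H : ℤ) ^ 2) :=
      mul_le_mul e1 hEb (abs_nonneg E) (by positivity)
    have e3 : ((C1 : ℤ) * (H : ℤ) ^ C1) ^ 2 * (50 * (H : ℤ) ^ 2) =
        50 * (C1 : ℤ) ^ 2 * (H : ℤ) ^ (2 * C1 + 2) := by ring
    have e4 : 50 * (C1 : ℤ) ^ 2 * (H : ℤ) ^ (2 * C1 + 2) ≤
        50 * (C1 : ℤ) ^ 2 * (H : ℤ) ^ K1 :=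
      mul_le_mul_of_nonneg_left (hpowle _ (by omega)) (by positivity)
    rw [hH'c, hK0c]
    have e5 : (0 : ℤ) ≤ 8 * ((b : ℤ) + 1) * (H : ℤ) ^ K1 := by positivity
    linarith
  have hRabs : 1 ≤ |R| := Int.one_le_abs hR0
  have hEabs : 1 ≤ |E| := Int.one_le_abs hE0
  have hR2 : 1 ≤ |R| ^ 2 := one_le_pow₀ hRabs
  have hRH : |R| ≤ (H' : ℤ) := by
    refine le_trans ?_ hRE
    rw [← sq_abs R]
    calc |R| = |R| * 1 := (mul_one _).symm
      _ ≤ |R| * |R| := mul_le_mul_of_nonneg_left hRabs (abs_nonneg R)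
      _ = |R| ^ 2 := (pow_two _).symm
      _ ≤ |R| ^ 2 * |E| := le_mul_of_one_le_right (by positivity) hEabs
  have hEH : |E| ≤ (H' : ℤ) := by
    refine le_trans ?_ hRE
    rw [← sq_abs R]
    exact le_mul_of_one_le_left (abs_nonneg E) hR2
  -- the values of the Thue form
  obtain ⟨M, hMc, hMb, hMm⟩ := MC2_values R E hR0 hE0
  obtain ⟨u₀, v₀, s₀, m₀, t₀, -, -, -, hs₀, -, hm₀, -, hval₀, -, -⟩ := hpt D₀ hD₀
  have hphi : phi A B z ≠ 0 := by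
    intro h
    rw [h] at hval₀
    have e1 : hev (2 * b + 1) (0 : ℤ[X]) u₀ v₀ = 0 := by
      unfold hev
      simp
    rw [e1] at hval₀
    exact mul_ne_zero (pow_ne_zero _ hs₀) hm₀ hval₀.symm
  have hbp' : ¬ (2 * b + 1 ∣ l₁ + 2 * j₁) := by
    rw [he₁]
    intro h
    rcases (Nat.dvd_prime hpp).1 h with h' | h'
    · omega
    · omega
  have hnd := fun c α β : ℚ => MC2_nondeg h3 h4 hb hbp' hq₁ hodd₁ h5₁ hL (hnd₁ l₂) hJ (hnd₁ j₂)
    hk₁ hC hphi hTow₀ hO₀ c α β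
  choose! u v s m t huv hu hv hs hsR hm hmE hval ht hDk using hpt
  set F : ℤ → ℤ × ℤ := fun D => (u D, v D) with hF
  have hinj : Set.InjOn F (T : Set ℤ) := by
    intro D hD D' hD' hEq
    have hD1 : D ∈ T := hD
    have hD2 : D' ∈ T := hD'
    have e1 : u D = u D' := congrArg Prod.fst hEq
    have e2 : v D = v D' := congrArg Prod.snd hEq
    obtain ⟨w, x, P, hTow, -, -⟩ := hT D hD1
    obtain ⟨w', x', P', hTow', -, -⟩ := hT D' hD2
    refine h5 D D' hTow.fund hTow'.fund (t D') (t D) (ht D' hD2) (ht D hD1) ?_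
    have e3 := hDk D hD1
    have e4 := hDk D' hD2
    rw [← e1, ← e2] at e4
    apply mul_right_cancel₀ (pow_ne_zero 2 hk0)
    calc D * t D' ^ 2 * k ^ 2 = t D' ^ 2 * (D * k ^ 2) := by ring
      _ = t D ^ 2 * (t D' ^ 2 * (u D ^ 2 - z * v D ^ 2)) := by rw [e3]; ring
      _ = D' * t D ^ 2 * k ^ 2 := by rw [← e4]; ring
  have hcard : T.card = (T.image F).card := (Finset.card_image_of_injOn hinj).symm
  have hmaps : ∀ p ∈ T.image F, hev (2 * b + 1) (phi A B z) p.1 p.2 ∈ M := by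
    intro p hp
    obtain ⟨D, hD, rfl⟩ := Finset.mem_image.1 hp
    show hev (2 * b + 1) (phi A B z) (u D) (v D) ∈ M
    rw [hval D hD]
    exact hMm _ _ (hsR D hD) (hmE D hD)
  have hfib : ∀ μ ∈ M, ((((T.image F).filter
      (fun p => hev (2 * b + 1) (phi A B z) p.1 p.2 = μ)).card : ℕ) : ℝ) ≤
      C3 * (H' : ℝ) ^ ε' := by
    intro μ hμ
    refine hTHF H' hH'1 (phi A B z) (MC2_deg_phi z hC.dA hC.dB) hcoef hnd μ (hMb μ hμ).1
      ((hMb μ hμ).2.trans hRE) _ ?_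
    intro p hp
    obtain ⟨hp1, hp2⟩ := Finset.mem_filter.1 hp
    obtain ⟨D, hD, rfl⟩ := Finset.mem_image.1 hp1
    exact ⟨huv D hD, (hu D hD).trans hHH', (hv D hD).trans hHH', hp2⟩
  have hsum : ((T.image F).card : ℝ) ≤ (M.card : ℝ) * (C3 * (H' : ℝ) ^ ε') := by
    rw [Finset.card_eq_sum_card_fiberwise hmaps]
    push_cast
    refine (Finset.sum_le_card_nsmul _ _ _ hfib).trans ?_
    rw [nsmul_eq_mul]
  have hH'R : (1 : ℝ) ≤ (H' : ℝ) := by exact_mod_cast hH'1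
  have hτR : ((R.natAbs.divisors.card : ℕ) : ℝ) ≤ Cτ * (H' : ℝ) ^ ε' := by
    refine (hdiv _ (Int.natAbs_pos.2 hR0)).trans ?_
    refine mul_le_mul_of_nonneg_left ?_ (by linarith)
    refine Real.rpow_le_rpow (Nat.cast_nonneg _) ?_ hε'pos.le
    have e1 : ((R.natAbs : ℕ) : ℤ) ≤ (H' : ℤ) := by rw [Int.natCast_natAbs]; exact hRH
    exact_mod_cast e1
  have hτE : ((E.natAbs.divisors.card : ℕ) : ℝ) ≤ Cτ * (H' : ℝ) ^ ε' := by
    refine (hdiv _ (Int.natAbs_pos.2 hE0)).trans ?_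
    refine mul_le_mul_of_nonneg_left ?_ (by linarith)
    refine Real.rpow_le_rpow (Nat.cast_nonneg _) ?_ hε'pos.le
    have e1 : ((E.natAbs : ℕ) : ℤ) ≤ (H' : ℤ) := by rw [Int.natCast_natAbs]; exact hEH
    exact_mod_cast e1
  have hMr : (M.card : ℝ) ≤ 2 * ((Cτ * (H' : ℝ) ^ ε') * (Cτ * (H' : ℝ) ^ ε')) := by
    have e1 : (M.card : ℝ) ≤
        2 * (((R.natAbs.divisors.card : ℕ) : ℝ) * ((E.natAbs.divisors.card : ℕ) : ℝ)) := by
      exact_mod_cast hMc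
    refine e1.trans ?_
    refine mul_le_mul_of_nonneg_left ?_ (by norm_num)
    exact mul_le_mul hτR hτE (Nat.cast_nonneg _) (by positivity)
  rw [hcard]
  refine hsum.trans ?_
  refine (mul_le_mul_of_nonneg_right hMr (by positivity)).trans (le_of_eq ?_)
  have hpow : ((H' : ℝ) ^ ε') ^ 3 = (K0 : ℝ) ^ (3 * ε') * (H : ℝ) ^ ε := by
    have hHr : (0 : ℝ) ≤ (H : ℝ) := Nat.cast_nonneg _
    rw [← Real.rpow_natCast, ← Real.rpow_mul (by positivity), hH']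
    push_cast
    rw [Real.mul_rpow (by positivity) (by positivity), ← Real.rpow_natCast (H : ℝ) K1,
      ← Real.rpow_mul hHr]
    have e1 : (K1 : ℝ) * (ε' * 3) = ε := by
      rw [hε']; field_simp
    rw [e1, mul_comm ε' 3]
  calc 2 * ((Cτ * (H' : ℝ) ^ ε') * (Cτ * (H' : ℝ) ^ ε')) * (C3 * (H' : ℝ) ^ ε')
      = 2 * Cτ ^ 2 * C3 * ((H' : ℝ) ^ ε') ^ 3 := by ring
    _ = 2 * Cτ ^ 2 * C3 * (K0 : ℝ) ^ (3 * ε') * (H : ℝ) ^ ε := by rw [hpow]; ring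

end Pool.Agent.helper27.TD
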